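import Mathlib
import Pool.Agent.Work.MP_374aea_al.FinB
import Pool.Agent.Work.MP_374aea_al.D2

set_option autoImplicit false

namespace Pool.Agent.Results.MP_374aea_al.NoFiniteLPresentation

/-- Automorphisms of the rooted tree of the finite words over the alphabet `X`: bijections that
preserve lengths and initial segments of words. -/
def IsTreeAut {X : Type} (g : Equiv.Perm (List X)) : Prop :=
  (∀ w : List X, (g w).length = w.length) ∧ ∀ v w : List X, g v <+: g (v ++ w)

/-- `h` is the section of `g` at the word `v`: `g (v w) = g (v) h (w)` for all words `w`. -/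
def IsSection {X : Type} (g : Equiv.Perm (List X)) (v : List X) (h : Equiv.Perm (List X)) : Prop :=
  ∀ w : List X, g (v ++ w) = g v ++ h w

/-- `G` is a self-similar group: it is generated by finitely many tree automorphisms `g i` which
are given recursively by `g i (x w) = y (h (w))`, where for each `i` and each letter `x` the letter
`y` is fixed and `h` is a group word in the generators, that is, an element of `G`. -/
def IsSelfSimilar {X : Type} (G : Subgroup (Equiv.Perm (List X))) : Prop :=
  ∃ (m : ℕ) (g : Fin m → Equiv.Perm (List X)), (∀ i, IsTreeAut (g i)) ∧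
    Subgroup.closure (Set.range g) = G ∧
    ∀ (i : Fin m) (x : X), ∃ y : X, ∃ h ∈ G, ∀ w : List X, g i (x :: w) = y :: h w

/-- `G` is contracting: there is a finite subset `N` of `G` such that for each `g` in `G` there is
`k` such that the section of `g` at every word of length at least `k` is in `N`. -/
def IsContracting {X : Type} (G : Subgroup (Equiv.Perm (List X))) : Prop :=
  ∃ N : Set (Equiv.Perm (List X)), N.Finite ∧ N ⊆ G ∧
    ∀ g ∈ G, ∃ k : ℕ, ∀ v : List X, k ≤ v.length → ∃ h ∈ N, IsSection g v h

/-- The relators of the L-presentation with the data `Q`, `Φ`, `R`: the elements of `Q` and the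
images of the elements of `R` under the elements of the monoid generated by `Φ`. -/
def relators {n : ℕ} (Q : Finset (FreeGroup (Fin n)))
    (Φ : Finset (Monoid.End (FreeGroup (Fin n)))) (R : Finset (FreeGroup (Fin n))) :
    Set (FreeGroup (Fin n)) :=
  {x | x ∈ Q ∨
    ∃ φ ∈ Submonoid.closure (Φ : Set (Monoid.End (FreeGroup (Fin n)))), ∃ r ∈ R, x = φ r}

/-- `G` admits a finite L-presentation: it is isomorphic to the quotient of the free group on a
finite set by the normal closure of the relators of a finite L-presentation. -/
def AdmitsFiniteLPresentation (G : Type) [Group G] : Prop :=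
  ∃ (n : ℕ) (Q : Finset (FreeGroup (Fin n))) (Φ : Finset (Monoid.End (FreeGroup (Fin n))))
    (R : Finset (FreeGroup (Fin n))),
    Nonempty (G ≃* FreeGroup (Fin n) ⧸ Subgroup.normalClosure (relators Q Φ R))

/-- There is a contracting self-similar group that admits no finite L-presentation. -/
theorem result : ∃ (X : Type) (_ : Fintype X), 2 ≤ Fintype.card X ∧
    ∃ G : Subgroup (Equiv.Perm (List X)),
      IsSelfSimilar G ∧ IsContracting G ∧ ¬ AdmitsFiniteLPresentation G := by
  refine ⟨Pool.Agent.MP_374aea_al.Xt, inferInstance, ?_, Pool.Agent.MP_374aea_al.GG,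
    Pool.Agent.MP_374aea_al.GG_selfSimilar, Pool.Agent.MP_374aea_al.GG_contracting,
    Pool.Agent.MP_374aea_al.no_LPres⟩
  rw [Fintype.card_option]
  have : 0 < Fintype.card (Pool.Agent.MP_374aea_al.Pt × Pool.Agent.MP_374aea_al.Zt) :=
    Fintype.card_pos
  omega

end Pool.Agent.Results.MP_374aea_al.NoFiniteLPresentation
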